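import Pool.Agent.H261R3.LH.Stmts

set_option autoImplicit false

namespace Pool.Agent.H146R3.LH

open Pool.Agent.H261R3.LH

section
variable {S : Type} [MetricSpace S]

lemma lip_mono {C D : ℝ} (h : C ≤ D) {f : ℝ → S} (hf : Lip1 C f) : Lip1 D f := by
  intro x y
  exact (hf x y).trans (mul_le_mul_of_nonneg_right h (abs_nonneg _))

lemma glue {M c : ℝ} {a b : ℝ → S} (ha : Lip1 M a) (hb : Lip1 M b) (hab : a c = b c) :
    Lip1 M (fun u => if u ≤ c then a u else b u) := by
  have key : ∀ x y, x ≤ y → dist (if x ≤ c then a x else b x) (if y ≤ c then a y else b y) ≤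
      M * |x - y| := by
    intro x y hxy
    by_cases hx : x ≤ c
    · by_cases hy : y ≤ c
      · rw [if_pos hx, if_pos hy]; exact ha x y
      · rw [if_pos hx, if_neg hy]
        have hy' : c ≤ y := (not_le.1 hy).le
        calc dist (a x) (b y) ≤ dist (a x) (a c) + dist (a c) (b y) := dist_triangle _ _ _
          _ = dist (a x) (a c) + dist (b c) (b y) := by rw [hab]
          _ ≤ M * |x - c| + M * |c - y| := add_le_add (ha x c) (hb c y)
          _ = M * |x - y| := by
            rw [abs_of_nonpos (sub_nonpos.2 hx), abs_of_nonpos (sub_nonpos.2 hy'),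
              abs_of_nonpos (sub_nonpos.2 hxy)]
            ring
    · have hy : ¬ y ≤ c := fun h => hx (hxy.trans h)
      rw [if_neg hx, if_neg hy]; exact hb x y
  intro x y
  rcases le_total x y with h | h
  · exact key x y h
  · show dist (if x ≤ c then a x else b x) (if y ≤ c then a y else b y) ≤ _
    rw [dist_comm, abs_sub_comm]; exact key y x h

lemma lip_comp {M N : ℝ} (hM : 0 ≤ M) {f : ℝ → S} {g : ℝ → ℝ} (hf : Lip1 M f)
    (hg : ∀ x y, |g x - g y| ≤ N * |x - y|) : Lip1 (M * N) (fun x => f (g x)) := by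
  intro x y
  calc dist (f (g x)) (f (g y)) ≤ M * |g x - g y| := hf _ _
    _ ≤ M * (N * |x - y|) := mul_le_mul_of_nonneg_left (hg x y) hM
    _ = M * N * |x - y| := by ring

end

lemma clip_le_one (x : ℝ) : clip x ≤ 1 := max_le zero_le_one (min_le_left _ _)

lemma clip_of_mem {x : ℝ} (h0 : 0 ≤ x) (h1 : x ≤ 1) : clip x = x := by
  rw [clip, min_eq_right h1, max_eq_right h0]

lemma clip_lip (x y : ℝ) : |clip x - clip y| ≤ |x - y| := by
  unfold clip
  calc |max 0 (min 1 x) - max 0 (min 1 y)| ≤ |min 1 x - min 1 y| := by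
        have := abs_max_sub_max_le_max 0 (min 1 x) 0 (min 1 y)
        simpa using this
    _ ≤ |x - y| := by
        have := abs_min_sub_min_le_max 1 x 1 y
        simpa using this

section
variable {S : Type} [MetricSpace S]

/-- the extended row -/
noncomputable def E (G : ℤ → ℤ → ℝ → ℝ → S) (K : ℤ → ℤ → ℝ → ℝ → S) (j k : ℤ) (h u : ℝ) : S :=
  if u ≤ 0 then K j k h (-u) else if u ≤ 1 then G j k u h else K j (k + 1) h (u - 1)

theorem taskStageC : TaskStageC := by
  intro hN S _ _ _ hS p C
  obtain ⟨C0, hC0, hK⟩ := hN S hS p C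
  set M : ℝ := |C| + C0 with hM
  have hM0 : 0 ≤ M := by positivity
  have hCM : C ≤ M := (le_abs_self C).trans (by linarith)
  have hC0M : C0 ≤ M := by have := abs_nonneg C; linarith
  refine ⟨3 * M, by positivity, ?_⟩
  intro G hG hp
  have hl : ∀ j k : ℤ, ∃ K : ℝ → ℝ → S, (∀ t, Lip1 C0 (fun h => K h t)) ∧
      (∀ h, Lip1 C0 (fun t => K h t)) ∧ (∀ h, 0 ≤ h → h ≤ 1 → K h 0 = G j k 0 h) ∧
      (∀ h, K h 1 = p) ∧ ∀ t, K 0 t = p ∧ K 1 t = p := fun j k =>
    hK (fun h => G j k 0 h) (hG.lh j k 0) (hp j k 0).1 (hp j k 0).2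
  choose K k1 k2 k3 k4 k5 using hl
  -- properties of the extended row
  have e0 : ∀ j k u, E G K j k 0 u = p := by
    intro j k u
    unfold E
    split_ifs
    · exact (k5 j k _).1
    · exact (hp j k u).1
    · exact (k5 j (k + 1) _).1
  have e1 : ∀ j k u, E G K j k 1 u = p := by
    intro j k u
    unfold E
    split_ifs
    · exact (k5 j k _).2
    · exact (hp j k u).2
    · exact (k5 j (k + 1) _).2
  have eG : ∀ j k h u, 0 ≤ h → h ≤ 1 → 0 ≤ u → u ≤ 1 → E G K j k h u = G j k u h := by
    intro j k h u h0 h1 u0 u1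
    unfold E
    by_cases hu : u ≤ 0
    · have : u = 0 := le_antisymm hu u0
      subst this
      rw [if_pos le_rfl, neg_zero, k3 j k h h0 h1]
    · rw [if_neg hu, if_pos u1]
  have elu : ∀ j k h, 0 ≤ h → h ≤ 1 → Lip1 M (fun u => E G K j k h u) := by
    intro j k h h0 h1
    have ha : Lip1 M (fun u => K j k h (-u)) := by
      intro x y
      have := lip_mono hC0M (k2 j k h) (-x) (-y)
      rwa [show -x - -y = -(x - y) by ring, abs_neg] at this
    have hb : Lip1 M (fun u => G j k u h) := lip_mono hCM (hG.ls j k h)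
    have hc : Lip1 M (fun u => K j (k + 1) h (u - 1)) := by
      intro x y
      have := lip_mono hC0M (k2 j (k + 1) h) (x - 1) (y - 1)
      rwa [show x - 1 - (y - 1) = x - y by ring] at this
    have hbc := glue (c := 1) hb hc (by
      show G j k 1 h = K j (k + 1) h (1 - 1)
      rw [sub_self, k3 j (k + 1) h h0 h1, hG.lr])
    exact glue (c := 0) ha hbc (by
      show K j k h (-0) = if (0:ℝ) ≤ 1 then G j k 0 h else _
      rw [if_pos zero_le_one, neg_zero, k3 j k h h0 h1])
  have elh : ∀ j k u, Lip1 M (fun h => E G K j k h u) := by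
    intro j k u
    unfold E
    by_cases hu : u ≤ 0
    · simp only [if_pos hu]
      exact lip_mono hC0M (k1 j k _)
    · by_cases hu1 : u ≤ 1
      · simp only [if_neg hu, if_pos hu1]
        exact lip_mono hCM (hG.lh j k u)
      · simp only [if_neg hu, if_neg hu1]
        exact lip_mono hC0M (k1 j (k + 1) _)
  -- the homotopy
  let H : ℝ → ℤ → ℤ → ℝ → ℝ → S := fun t j k s h =>
    E G K j k (clip h) ((1 + 2 * clip t) * clip s - clip t)
  have c0 : clip 0 = 0 := clip_of_mem le_rfl zero_le_one
  have c1 : clip 1 = 1 := clip_of_mem zero_le_one le_rfl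
  have hgood : ∀ t, Good (3 * M) (H t) := by
    intro t
    have ht0 := clip_nonneg t
    have ht1 := clip_le_one t
    refine ⟨?_, ?_, ?_, ?_, ?_⟩
    · intro j k h
      have := lip_comp hM0 (elu j k (clip h) (clip_nonneg h) (clip_le_one h))
        (g := fun s => (1 + 2 * clip t) * clip s - clip t) (N := 3) (by
          intro x y
          have h3 : (1 + 2 * clip t) * clip x - clip t - ((1 + 2 * clip t) * clip y - clip t) =
              (1 + 2 * clip t) * (clip x - clip y) := by ring
          rw [h3, abs_mul, abs_of_nonneg (by linarith)]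
          exact mul_le_mul (by linarith) (clip_lip x y) (abs_nonneg _) (by norm_num))
      exact lip_mono (by linarith) this
    · intro j k s
      have := lip_comp hM0 (elh j k ((1 + 2 * clip t) * clip s - clip t)) (g := clip) (N := 1) (by
        intro x y; rw [one_mul]; exact clip_lip x y)
      exact lip_mono (by linarith) this
    · intro j k h
      show E G K j k (clip h) ((1 + 2 * clip t) * clip 1 - clip t) =
        E G K j (k + 1) (clip h) ((1 + 2 * clip t) * clip 0 - clip t)
      rw [c0, c1]
      have h1 : (1 + 2 * clip t) * 1 - clip t = 1 + clip t := by ring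
      have h2 : (1 + 2 * clip t) * 0 - clip t = - clip t := by ring
      rw [h1, h2]
      unfold E
      rw [if_neg (by linarith), if_pos (by linarith : -clip t ≤ 0), neg_neg]
      by_cases hz : clip t = 0
      · rw [hz, if_pos (by norm_num), add_zero, hG.lr,
          k3 j (k + 1) _ (clip_nonneg h) (clip_le_one h)]
      · have : 0 < clip t := lt_of_le_of_ne ht0 (Ne.symm hz)
        rw [if_neg (by linarith), add_sub_cancel_left]
    · intro j k s _ _
      show E G K j (2 * k) (clip 1) _ = E G K (j + 1) k (clip 0) _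
      rw [c0, c1, e0, e1]
    · intro j k s _ _
      show E G K j (2 * k + 1) (clip 1) _ = E G K (j + 1) k (clip 0) _
      rw [c0, c1, e0, e1]
  have hps : ∀ t j k s, H t j k s 0 = p ∧ H t j k s 1 = p := by
    intro t j k s
    refine ⟨?_, ?_⟩
    · show E G K j k (clip 0) _ = p
      rw [c0, e0]
    · show E G K j k (clip 1) _ = p
      rw [c1, e1]
  refine ⟨H 1, ⟨H, hgood, ?_, ?_, fun _ _ _ _ _ _ _ _ => rfl⟩, hgood 1, hps 1, ?_⟩
  · intro j k s h
    have := lip_comp hM0 (elu j k (clip h) (clip_nonneg h) (clip_le_one h))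
      (g := fun t => (1 + 2 * clip t) * clip s - clip t) (N := 1) (by
        intro x y
        have h3 : (1 + 2 * clip x) * clip s - clip x - ((1 + 2 * clip y) * clip s - clip y) =
            (2 * clip s - 1) * (clip x - clip y) := by ring
        have h4 : |2 * clip s - 1| ≤ 1 := by
          rw [abs_le]
          have := clip_nonneg s
          have := clip_le_one s
          constructor <;> linarith
        rw [h3, abs_mul]
        exact mul_le_mul h4 (clip_lip x y) (abs_nonneg _) (by norm_num))
    exact lip_mono (by linarith) this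
  · intro j k s h s0 s1 h0 h1
    show E G K j k (clip h) ((1 + 2 * clip 0) * clip s - clip 0) = G j k s h
    rw [c0, clip_of_mem h0 h1, clip_of_mem s0 s1]
    have : (1 + 2 * (0:ℝ)) * s - 0 = s := by ring
    rw [this, eG j k h s h0 h1 s0 s1]
  · intro j k h
    refine ⟨?_, ?_⟩
    · show E G K j k (clip h) ((1 + 2 * clip 1) * clip 0 - clip 1) = p
      rw [c0, c1]
      unfold E
      rw [if_pos (by norm_num)]
      have : -((1 + 2 * (1:ℝ)) * 0 - 1) = 1 := by norm_num
      rw [this, k4]
    · show E G K j k (clip h) ((1 + 2 * clip 1) * clip 1 - clip 1) = p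
      rw [c1]
      unfold E
      rw [if_neg (by norm_num), if_neg (by norm_num)]
      have : (1 + 2 * (1:ℝ)) * 1 - 1 - 1 = 1 := by norm_num
      rw [this, k4]

end

end Pool.Agent.H146R3.LH
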